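import Pool.Agent.AML.C.Defs

/-! [AML-C1] The maps `TT`, `TTi`, `TTn`, `SS` of the circle `OnePoint ℝ`: algebraic identities and
continuity. Everything by cases `f = ∞` or `f = x` (`OnePoint.rec`/`induction f using OnePoint.rec`).
Continuity: `OnePoint.continuous_iff` or `OnePoint.continuousAt_infty'`, `OnePoint.continuousAt_coe`;
`TTn n` is `OnePoint.map` of a homeomorphism of `ℝ` (`OnePoint.continuous_map`, the translation is a
closed embedding hence tends to cocompact along cocompact). `SS` : at a point `x ≠ 0` it is the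
composition with `x ↦ -1/x`; at `∞` use `tendsto_inv₀_cobounded`/`-1/x → 0` as `|x| → ∞`
(`coclosedCompact ℝ = cocompact = cobounded`); at `0` : `|−1/x| → ∞`, use
`OnePoint.tendsto_coe_infty` and `tendsto_inv₀_nhdsNE_zero` (or `Filter.tendsto_inv₀_nhdsWithin_ne_zero`),
and the value at `0` itself is `∞`. -/

set_option linter.style.longLine false

open Topology Set

namespace Pool.AML

theorem TT_coe (x : ℝ) : TT (x : OnePoint ℝ) = ((x + 1 : ℝ) : OnePoint ℝ) := rfl
theorem TT_infty : TT OnePoint.infty = OnePoint.infty := rfl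
theorem TTi_coe (x : ℝ) : TTi (x : OnePoint ℝ) = ((x - 1 : ℝ) : OnePoint ℝ) := rfl
theorem TTi_infty : TTi OnePoint.infty = OnePoint.infty := rfl
theorem TTn_coe (n : ℤ) (x : ℝ) : TTn n (x : OnePoint ℝ) = ((x + n : ℝ) : OnePoint ℝ) := rfl
theorem TTn_infty (n : ℤ) : TTn n OnePoint.infty = OnePoint.infty := rfl
theorem SS_coe {x : ℝ} (hx : x ≠ 0) : SS (x : OnePoint ℝ) = ((-1 / x : ℝ) : OnePoint ℝ) := by
  show (if x = 0 then OnePoint.infty else ((-1 / x : ℝ) : OnePoint ℝ)) = _
  rw [if_neg hx]
theorem SS_zero : SS ((0 : ℝ) : OnePoint ℝ) = OnePoint.infty := by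
  show (if (0 : ℝ) = 0 then OnePoint.infty else ((-1 / 0 : ℝ) : OnePoint ℝ)) = _
  rw [if_pos rfl]
theorem SS_infty : SS OnePoint.infty = ((0 : ℝ) : OnePoint ℝ) := rfl
theorem TT_TTi (f : OnePoint ℝ) : TT (TTi f) = f := by
  induction f using OnePoint.rec with
  | infty => rfl
  | coe x => rw [TTi_coe, TT_coe, sub_add_cancel]
theorem TTi_TT (f : OnePoint ℝ) : TTi (TT f) = f := by
  induction f using OnePoint.rec with
  | infty => rfl
  | coe x => rw [TT_coe, TTi_coe, add_sub_cancel_right]
theorem SS_SS (f : OnePoint ℝ) : SS (SS f) = f := by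
  induction f using OnePoint.rec with
  | infty => rw [SS_infty, SS_zero]
  | coe x =>
    by_cases hx : x = 0
    · subst hx
      rw [SS_zero, SS_infty]
    · have h : (-1 / x : ℝ) ≠ 0 := div_ne_zero (by norm_num) hx
      rw [SS_coe hx, SS_coe h]
      congr 1
      field_simp
theorem TTn_zero (f : OnePoint ℝ) : TTn 0 f = f := by
  induction f using OnePoint.rec with
  | infty => rfl
  | coe x => rw [TTn_coe, Int.cast_zero, add_zero]
theorem TTn_one (f : OnePoint ℝ) : TTn 1 f = TT f := by
  induction f using OnePoint.rec with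
  | infty => rfl
  | coe x => rw [TTn_coe, TT_coe, Int.cast_one]
theorem TTn_neg_one (f : OnePoint ℝ) : TTn (-1) f = TTi f := by
  induction f using OnePoint.rec with
  | infty => rfl
  | coe x => rw [TTn_coe, TTi_coe, Int.cast_neg, Int.cast_one, ← sub_eq_add_neg]
theorem TTn_add (m n : ℤ) (f : OnePoint ℝ) : TTn m (TTn n f) = TTn (m + n) f := by
  induction f using OnePoint.rec with
  | infty => rfl
  | coe x =>
    rw [TTn_coe, TTn_coe, TTn_coe, Int.cast_add]
    congr 1
    ring
/-- `(TS)³ = 1`. -/
theorem TS3 (f : OnePoint ℝ) : TT (SS (TT (SS (TT (SS f))))) = f := by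
  induction f using OnePoint.rec with
  | infty =>
    rw [SS_infty, TT_coe, zero_add, SS_coe one_ne_zero, TT_coe]
    norm_num
    rw [SS_zero, TT_infty]
  | coe x =>
    by_cases hx : x = 0
    · subst hx
      rw [SS_zero, TT_infty, SS_infty, TT_coe, zero_add, SS_coe one_ne_zero, TT_coe]
      norm_num
    · by_cases hx1 : x = 1
      · subst hx1
        rw [SS_coe one_ne_zero, TT_coe]
        norm_num
        rw [SS_zero, TT_infty, SS_infty, TT_coe, zero_add]
      · have h1 : x - 1 ≠ 0 := sub_ne_zero.2 hx1
        have h2 : (-1 / x + 1 : ℝ) = (x - 1) / x := by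
          field_simp
          ring
        have h3 : (x - 1) / x ≠ 0 := div_ne_zero h1 hx
        have h4 : (-1 / ((x - 1) / x) + 1 : ℝ) = -1 / (x - 1) := by
          field_simp
          ring
        have h5 : (-1 / (x - 1) : ℝ) ≠ 0 := div_ne_zero (by norm_num) h1
        rw [SS_coe hx, TT_coe, h2, SS_coe h3, TT_coe, h4, SS_coe h5, TT_coe]
        congr 1
        field_simp
        ring
theorem SS_ne (f : OnePoint ℝ) : SS f ≠ f := by
  induction f using OnePoint.rec with
  | infty =>
    rw [SS_infty]
    exact OnePoint.coe_ne_infty _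
  | coe x =>
    by_cases hx : x = 0
    · subst hx
      rw [SS_zero]
      exact OnePoint.infty_ne_coe _
    · rw [SS_coe hx]
      intro h
      rw [OnePoint.coe_eq_coe] at h
      have h1 : -1 = x * x := by
        field_simp at h
        nlinarith [h]
      nlinarith [mul_self_nonneg x]
theorem continuous_TTn (n : ℤ) : Continuous (TTn n) := by
  have h : TTn n = OnePoint.map (fun x : ℝ => x + n) := by
    funext f
    induction f using OnePoint.rec with
    | infty => rfl
    | coe x => rfl
  rw [h]
  refine OnePoint.continuous_map (by fun_prop) ?_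
  rw [Filter.coclosedCompact_eq_cocompact]
  exact (Homeomorph.addRight (n : ℝ)).isClosedEmbedding.tendsto_cocompact
theorem continuous_TT : Continuous TT := by
  have h : TT = TTn 1 := by
    funext f
    rw [TTn_one]
  rw [h]
  exact continuous_TTn 1
theorem continuous_TTi : Continuous TTi := by
  have h : TTi = TTn (-1) := by
    funext f
    rw [TTn_neg_one]
  rw [h]
  exact continuous_TTn (-1)
theorem continuous_SS : Continuous SS := by
  rw [OnePoint.continuous_iff]
  constructor
  · rw [SS_infty, Filter.coclosedCompact_eq_cocompact, ← Metric.cobounded_eq_cocompact]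
    have h1 : Filter.Tendsto (fun x : ℝ => ((-1 / x : ℝ) : OnePoint ℝ)) (Bornology.cobounded ℝ)
        (𝓝 ((0 : ℝ) : OnePoint ℝ)) := by
      have h2 : Filter.Tendsto (fun x : ℝ => (-1 / x : ℝ)) (Bornology.cobounded ℝ) (𝓝 0) := by
        have h3 := (Filter.tendsto_inv₀_cobounded (α := ℝ)).neg
        rw [neg_zero] at h3
        refine h3.congr fun x => ?_
        rw [neg_div, one_div]
      exact (OnePoint.continuous_coe.tendsto 0).comp h2
    refine h1.congr' ?_
    have h4 : ∀ᶠ x : ℝ in Bornology.cobounded ℝ, x ≠ 0 := Bornology.eventually_ne_cobounded 0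
    filter_upwards [h4] with x hx
    exact (SS_coe hx).symm
  · rw [continuous_iff_continuousAt]
    intro x
    by_cases hx : x = 0
    · subst hx
      rw [continuousAt_iff_punctured_nhds, SS_zero]
      have h1 : Filter.Tendsto (fun x : ℝ => (-1 / x : ℝ)) (𝓝[≠] 0) (Filter.coclosedCompact ℝ) := by
        rw [Filter.coclosedCompact_eq_cocompact, ← Metric.cobounded_eq_cocompact]
        have h3 := (Filter.tendsto_neg_cobounded (E := ℝ)).comp (Filter.tendsto_inv₀_nhdsNE_zero (α := ℝ))
        refine h3.congr fun x => ?_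
        show -(x⁻¹) = -1 / x
        rw [neg_div, one_div]
      have h2 := OnePoint.tendsto_coe_infty.comp h1
      refine h2.congr' ?_
      filter_upwards [self_mem_nhdsWithin] with y hy
      exact (SS_coe hy).symm
    · have h1 : ContinuousAt (fun x : ℝ => ((-1 / x : ℝ) : OnePoint ℝ)) x := by
        refine OnePoint.continuous_coe.continuousAt.comp ?_
        exact ContinuousAt.div continuousAt_const continuousAt_id hx
      refine h1.congr ?_
      filter_upwards [isOpen_ne.mem_nhds hx] with y hy
      exact (SS_coe hy).symm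

end Pool.AML
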