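import Pool.Agent.AML.C.Defs
import Pool.Agent.AML.C.C1

/-! [AML-C2] The class map `cls : ℝ² ∖ 0 → ℝ ∪ {∞}`, `(x, y) ↦ x / y` (`∞` if `y = 0`).
Continuity: at a vector with `y ≠ 0` it is `coe ∘ (x / y)`; at `(x₀, 0)`, `x₀ ≠ 0`: a neighbourhood
of `∞` contains `{∞} ∪ {|t| > R}`, and `|x| > R |y|` near `(x₀, 0)`. (Or: `cls (x, y) = SS (cls (-y, x))`
and continuity of `SS` from C1: near `(x₀, 0)` one has `cls (x, y) = SS ((-y / x : ℝ))`.)
Quotient map: if `s` has open preimage in `{v // v ≠ 0}` then `s` is open: near `x ∈ ℝ` pull back by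
`x ↦ (x, 1)`; near `∞` use `f = SS (SS f)` and pull back by `x ↦ (-1, x)` (`cls (-1, x) = SS x`). -/

set_option linter.style.longLine false

open Topology Set
open scoped MatrixGroups

namespace Pool.AML

theorem C2_cls_inf {v : ℝ × ℝ} (h : v.2 = 0) : cls v = OnePoint.infty := by
  unfold cls; rw [if_pos h]

theorem C2_cls_coe {v : ℝ × ℝ} (h : v.2 ≠ 0) : cls v = ((v.1 / v.2 : ℝ) : OnePoint ℝ) := by
  unfold cls; rw [if_neg h]

theorem C2_rep_inf : rep OnePoint.infty = (1, 0) := rfl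
theorem C2_rep_coe (x : ℝ) : rep (x : OnePoint ℝ) = (x, 1) := rfl

theorem cls_rep (f : OnePoint ℝ) : cls (rep f) = f := by
  induction f using OnePoint.rec with
  | infty => rw [C2_rep_inf]; exact C2_cls_inf rfl
  | coe x =>
    rw [C2_rep_coe, C2_cls_coe (by norm_num)]
    simp

theorem rep_ne_zero (f : OnePoint ℝ) : rep f ≠ 0 := by
  induction f using OnePoint.rec with
  | infty => rw [C2_rep_inf]; intro h; have := congrArg Prod.fst h; norm_num at this
  | coe x => rw [C2_rep_coe]; intro h; have := congrArg Prod.snd h; norm_num at this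

theorem cls_smul {c : ℝ} (hc : c ≠ 0) (v : ℝ × ℝ) : cls (c • v) = cls v := by
  by_cases h : v.2 = 0
  · rw [C2_cls_inf h, C2_cls_inf]
    simp [h]
  · rw [C2_cls_coe h, C2_cls_coe]
    · congr 1
      simp only [Prod.smul_fst, Prod.smul_snd, smul_eq_mul]
      field_simp
    · simp [h, hc]

theorem C2_fst_ne {v : ℝ × ℝ} (hv : v ≠ 0) (h : v.2 = 0) : v.1 ≠ 0 := by
  intro h1
  apply hv
  exact Prod.ext h1 h

theorem cls_eq_iff {v w : ℝ × ℝ} (hv : v ≠ 0) (hw : w ≠ 0) : cls v = cls w ↔ v.1 * w.2 = v.2 * w.1 := by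
  by_cases h : v.2 = 0
  · have hv1 := C2_fst_ne hv h
    rw [C2_cls_inf h, h]
    by_cases h' : w.2 = 0
    · rw [C2_cls_inf h', h']; simp
    · rw [C2_cls_coe h']
      constructor
      · intro hc; exact absurd hc (OnePoint.infty_ne_coe _)
      · intro hc
        exfalso
        rw [zero_mul] at hc
        rcases mul_eq_zero.1 hc with h1 | h1
        · exact hv1 h1
        · exact h' h1
  · rw [C2_cls_coe h]
    by_cases h' : w.2 = 0
    · have hw1 := C2_fst_ne hw h'
      rw [C2_cls_inf h', h']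
      constructor
      · intro hc; exact absurd hc (OnePoint.coe_ne_infty _)
      · intro hc
        exfalso
        rw [mul_zero] at hc
        rcases mul_eq_zero.1 hc.symm with h1 | h1
        · exact h h1
        · exact hw1 h1
    · rw [C2_cls_coe h', OnePoint.coe_eq_coe, div_eq_div_iff h h']
      constructor
      · intro hc; rw [hc]; ring
      · intro hc; rw [hc]; ring

theorem TT_cls {v : ℝ × ℝ} (hv : v ≠ 0) : TT (cls v) = cls (v.1 + v.2, v.2) := by
  by_cases h : v.2 = 0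
  · rw [C2_cls_inf h, TT_infty, C2_cls_inf]; exact h
  · rw [C2_cls_coe h, TT_coe, C2_cls_coe (by exact h)]
    congr 1
    field_simp

theorem TTi_cls {v : ℝ × ℝ} (hv : v ≠ 0) : TTi (cls v) = cls (v.1 - v.2, v.2) := by
  by_cases h : v.2 = 0
  · rw [C2_cls_inf h, TTi_infty, C2_cls_inf]; exact h
  · rw [C2_cls_coe h, TTi_coe, C2_cls_coe (by exact h)]
    congr 1
    field_simp

theorem SS_cls {v : ℝ × ℝ} (hv : v ≠ 0) : SS (cls v) = cls (-v.2, v.1) := by
  by_cases h : v.2 = 0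
  · have hv1 := C2_fst_ne hv h
    rw [C2_cls_inf h, SS_infty, C2_cls_coe (by exact hv1)]
    congr 1
    rw [h]; simp
  · rw [C2_cls_coe h]
    by_cases h1 : v.1 = 0
    · rw [h1, zero_div, SS_zero, C2_cls_inf rfl]
    · rw [SS_coe (div_ne_zero h1 h), C2_cls_coe (by exact h1)]
      congr 1
      field_simp

theorem C2_continuousAt {v : ℝ × ℝ} (h : v.2 ≠ 0) : ContinuousAt cls v := by
  have h1 : ContinuousAt (fun w : ℝ × ℝ => ((w.1 / w.2 : ℝ) : OnePoint ℝ)) v := by
    have h2 : ContinuousAt (fun w : ℝ × ℝ => w.1 / w.2) v :=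
      continuousAt_fst.div continuousAt_snd h
    exact (OnePoint.continuous_coe.continuousAt).comp h2
  refine h1.congr ?_
  have h3 : ∀ᶠ w : ℝ × ℝ in 𝓝 v, w.2 ≠ 0 := continuousAt_snd.eventually_ne h
  filter_upwards [h3] with w hw
  exact (C2_cls_coe hw).symm

theorem continuousOn_cls : ContinuousOn cls {v | v ≠ 0} := by
  intro v hv
  apply ContinuousAt.continuousWithinAt
  by_cases h : v.2 = 0
  · have hv1 := C2_fst_ne hv h
    have h1 : ContinuousAt (fun w : ℝ × ℝ => SS (cls (w.2, -w.1))) v := by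
      have h2 : ContinuousAt (fun w : ℝ × ℝ => ((w.2, -w.1) : ℝ × ℝ)) v :=
        (continuous_snd.prodMk continuous_fst.neg).continuousAt
      have h3 : ContinuousAt cls ((v.2, -v.1) : ℝ × ℝ) := C2_continuousAt (neg_ne_zero.2 hv1)
      exact continuous_SS.continuousAt.comp (ContinuousAt.comp (f := fun w : ℝ × ℝ => ((w.2, -w.1) : ℝ × ℝ)) h3 h2)
    refine h1.congr ?_
    have h3 : ∀ᶠ w : ℝ × ℝ in 𝓝 v, w.1 ≠ 0 := continuousAt_fst.eventually_ne hv1
    filter_upwards [h3] with w hw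
    rw [SS_cls (v := (w.2, -w.1)) (by
      intro hc
      have := congrArg Prod.snd hc
      simp at this
      exact hw this)]
    simp
  · exact C2_continuousAt h

theorem C2_surj : Function.Surjective (fun v : {v : ℝ × ℝ // v ≠ 0} => cls v.1) :=
  fun f => ⟨⟨rep f, rep_ne_zero f⟩, cls_rep f⟩

theorem C2_cont : Continuous (fun v : {v : ℝ × ℝ // v ≠ 0} => cls v.1) :=
  continuousOn_cls.comp_continuous continuous_subtype_val (fun v => v.2)

theorem C2_pne {c : ℝ} (hc : c ≠ 0) (t : ℝ) : ((t * c, c) : ℝ × ℝ) ≠ 0 := by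
  intro h; have := congrArg Prod.snd h; exact hc this

theorem C2_pne' {c : ℝ} (hc : c ≠ 0) : ((c, 0) : ℝ × ℝ) ≠ 0 := by
  intro h; have := congrArg Prod.fst h; exact hc this

/-- a section of `cls`, continuous on `ℝ`. -/
noncomputable def C2_sec {c : ℝ} (hc : c ≠ 0) (y : OnePoint ℝ) : {v : ℝ × ℝ // v ≠ 0} :=
  y.elim ⟨(c, 0), C2_pne' hc⟩ (fun t => ⟨(t * c, c), C2_pne hc t⟩)

theorem C2_sec_coe {c : ℝ} (hc : c ≠ 0) (t : ℝ) :
    C2_sec hc (t : OnePoint ℝ) = ⟨(t * c, c), C2_pne hc t⟩ := rfl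

theorem C2_sec_cls {c : ℝ} (hc : c ≠ 0) (y : OnePoint ℝ) : cls (C2_sec hc y).1 = y := by
  induction y using OnePoint.rec with
  | infty => exact C2_cls_inf rfl
  | coe t =>
    rw [C2_sec_coe, C2_cls_coe (by exact hc)]
    congr 1
    field_simp

theorem C2_sec_cont {c : ℝ} (hc : c ≠ 0) (t : ℝ) : ContinuousAt (C2_sec hc) (t : OnePoint ℝ) := by
  rw [OnePoint.continuousAt_coe]
  have : (C2_sec hc ∘ fun x : ℝ => (x : OnePoint ℝ)) = fun t => ⟨(t * c, c), C2_pne hc t⟩ := by
    funext t; rfl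
  have h2 : Continuous (fun t : ℝ => (⟨(t * c, c), C2_pne hc t⟩ : {v : ℝ × ℝ // v ≠ 0})) := by
    apply Continuous.subtype_mk
    fun_prop
  have h3 := h2.continuousAt (x := t)
  exact h3

theorem isOpenMap_cls : IsOpenMap (fun v : {v : ℝ × ℝ // v ≠ 0} => cls v.1) := by
  apply IsOpenMap.of_sections
  rintro ⟨v, hv⟩
  by_cases h : v.2 = 0
  · have hv1 := C2_fst_ne hv h
    have hr : ∀ w : {v : ℝ × ℝ // v ≠ 0}, ((w.1.2, -w.1.1) : ℝ × ℝ) ≠ 0 := by
      intro w hc
      apply w.2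
      have e1 := congrArg Prod.fst hc
      have e2 := congrArg Prod.snd hc
      simp at e1 e2
      exact Prod.ext e2 e1
    refine ⟨fun y => ⟨((C2_sec hv1 (SS y)).1.2, -(C2_sec hv1 (SS y)).1.1), hr _⟩, ?_, ?_, ?_⟩
    · have e0 : SS (cls v) = ((0 : ℝ) : OnePoint ℝ) := by rw [C2_cls_inf h, SS_infty]
      have c1 : ContinuousAt (C2_sec hv1) (SS (cls v)) := by rw [e0]; exact C2_sec_cont hv1 0
      have c2 : ContinuousAt (fun y => C2_sec hv1 (SS y)) (cls v) :=
        ContinuousAt.comp c1 continuous_SS.continuousAt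
      have c3 : Continuous (fun w : {v : ℝ × ℝ // v ≠ 0} =>
          (⟨(w.1.2, -w.1.1), hr w⟩ : {v : ℝ × ℝ // v ≠ 0})) := by
        apply Continuous.subtype_mk
        fun_prop
      exact ContinuousAt.comp (f := fun y => C2_sec hv1 (SS y)) c3.continuousAt c2
    · apply Subtype.ext
      have e0 : SS (cls v) = ((0 : ℝ) : OnePoint ℝ) := by rw [C2_cls_inf h, SS_infty]
      show ((C2_sec hv1 (SS (cls v))).1.2, -(C2_sec hv1 (SS (cls v))).1.1) = v
      rw [e0, C2_sec_coe]
      simp only [zero_mul, neg_zero]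
      exact Prod.ext rfl h.symm
    · intro y
      show cls ((C2_sec hv1 (SS y)).1.2, -(C2_sec hv1 (SS y)).1.1) = y
      have e1 := SS_cls (hr (C2_sec hv1 (SS y)))
      simp only [neg_neg] at e1
      have e2 : cls ((C2_sec hv1 (SS y)).1.1, (C2_sec hv1 (SS y)).1.2) = SS y := C2_sec_cls hv1 (SS y)
      rw [e2] at e1
      have e3 := congrArg SS e1
      rw [SS_SS, SS_SS] at e3
      exact e3
  · refine ⟨C2_sec h, ?_, ?_, fun y => C2_sec_cls h y⟩
    · show ContinuousAt (C2_sec h) (cls v)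
      rw [C2_cls_coe h]
      exact C2_sec_cont h _
    · apply Subtype.ext
      show (C2_sec h (cls v)).1 = v
      rw [C2_cls_coe h, C2_sec_coe]
      exact Prod.ext (by simp only; field_simp) rfl

theorem isQuotientMap_cls : IsQuotientMap (fun v : {v : ℝ × ℝ // v ≠ 0} => cls v.1) :=
  isOpenMap_cls.isQuotientMap C2_cont C2_surj

theorem C2_det (g : SL(2, ℝ)) : g.1 0 0 * g.1 1 1 - g.1 0 1 * g.1 1 0 = 1 := by
  have h := g.2
  rw [Matrix.det_fin_two] at h
  exact h

theorem mv_ne_zero (g : SL(2, ℝ)) {v : ℝ × ℝ} (hv : v ≠ 0) : mv g v ≠ 0 := by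
  intro h
  apply hv
  have h1 : g.1 0 0 * v.1 + g.1 0 1 * v.2 = 0 := congrArg Prod.fst h
  have h2 : g.1 1 0 * v.1 + g.1 1 1 * v.2 = 0 := congrArg Prod.snd h
  have hd := C2_det g
  apply Prod.ext
  · show v.1 = 0
    linear_combination g.1 1 1 * h1 - g.1 0 1 * h2 - v.1 * hd
  · show v.2 = 0
    linear_combination g.1 0 0 * h2 - g.1 1 0 * h1 - v.2 * hd

theorem mv_mul (g h : SL(2, ℝ)) (v : ℝ × ℝ) : mv (g * h) v = mv g (mv h v) := by
  unfold mv
  have hm : (g * h).1 = g.1 * h.1 := rfl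
  rw [hm]
  simp only [Matrix.mul_apply, Fin.sum_univ_two]
  apply Prod.ext
  · simp only; ring
  · simp only; ring

theorem C2_mv_smul (g : SL(2, ℝ)) (c : ℝ) (v : ℝ × ℝ) : mv g (c • v) = c • mv g v := by
  unfold mv
  apply Prod.ext
  · simp only [Prod.smul_fst, Prod.smul_snd, smul_eq_mul]; ring
  · simp only [Prod.smul_fst, Prod.smul_snd, smul_eq_mul]; ring

theorem mob_cls (g : SL(2, ℝ)) {v : ℝ × ℝ} (hv : v ≠ 0) : mob g (cls v) = cls (mv g v) := by
  have key : ∃ c : ℝ, c ≠ 0 ∧ v = c • rep (cls v) := by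
    by_cases h : v.2 = 0
    · have hv1 := C2_fst_ne hv h
      refine ⟨v.1, hv1, ?_⟩
      rw [C2_cls_inf h, C2_rep_inf]
      exact Prod.ext (by simp) (by simp [h])
    · refine ⟨v.2, h, ?_⟩
      rw [C2_cls_coe h, C2_rep_coe]
      exact Prod.ext (by simp only [Prod.smul_fst, smul_eq_mul]; field_simp) (by simp)
  obtain ⟨c, hc, hcv⟩ := key
  have : cls (mv g v) = cls (mv g (rep (cls v))) := by
    conv_lhs => rw [hcv]
    rw [C2_mv_smul, cls_smul hc]
  rw [this]
  rfl

theorem mob_one (f : OnePoint ℝ) : mob 1 f = f := by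
  unfold mob
  have : mv 1 (rep f) = rep f := by
    unfold mv
    apply Prod.ext <;> simp
  rw [this, cls_rep]

theorem mob_mul (g h : SL(2, ℝ)) (f : OnePoint ℝ) : mob (g * h) f = mob g (mob h f) := by
  have e1 : mob h f = cls (mv h (rep f)) := rfl
  rw [e1, mob_cls g (mv_ne_zero h (rep_ne_zero f)), ← mv_mul]
  rfl

theorem mob_neg (g : SL(2, ℝ)) (f : OnePoint ℝ) : mob (-g) f = mob g f := by
  unfold mob
  have : mv (-g) (rep f) = (-1 : ℝ) • mv g (rep f) := by
    unfold mv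
    apply Prod.ext
    · simp only [Prod.smul_fst, smul_eq_mul, Matrix.SpecialLinearGroup.coe_neg, Matrix.neg_apply]
      ring
    · simp only [Prod.smul_snd, smul_eq_mul, Matrix.SpecialLinearGroup.coe_neg, Matrix.neg_apply]
      ring
  rw [this, cls_smul (by norm_num)]

theorem continuous_mob (g : SL(2, ℝ)) : Continuous (mob g) := by
  rw [isQuotientMap_cls.continuous_iff]
  have e : (mob g ∘ fun v : {v : ℝ × ℝ // v ≠ 0} => cls v.1) = fun v => cls (mv g v.1) := by
    funext v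
    exact mob_cls g v.2
  rw [e]
  refine continuousOn_cls.comp_continuous (f := fun v : {v : ℝ × ℝ // v ≠ 0} => mv g v.1) ?_
    (fun v => mv_ne_zero g v.2)
  unfold mv
  fun_prop

theorem mob_infty (g : SL(2, ℝ)) : mob g OnePoint.infty = cls (g.1 0 0, g.1 1 0) := by
  unfold mob
  rw [C2_rep_inf]
  unfold mv
  simp

/-- the forward end point `g • ∞` depends continuously on `g`. -/
theorem continuous_mob_infty : Continuous (fun g : SL(2, ℝ) => mob g OnePoint.infty) := by
  have e : (fun g : SL(2, ℝ) => mob g OnePoint.infty) = fun g => cls (mv g (1, 0)) := by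
    funext g; rfl
  rw [e]
  refine continuousOn_cls.comp_continuous (f := fun g : SL(2, ℝ) => mv g (1, 0)) ?_
    (fun g => mv_ne_zero g (C2_pne' one_ne_zero))
  unfold mv
  have hc : ∀ i j : Fin 2, Continuous (fun g : SL(2, ℝ) => g.1 i j) := fun i j =>
    (continuous_apply_apply i j).comp continuous_subtype_val
  exact (((hc 0 0).mul continuous_const).add ((hc 0 1).mul continuous_const)).prodMk
    (((hc 1 0).mul continuous_const).add ((hc 1 1).mul continuous_const))

end Pool.AML
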