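import Pool.Agent.AML.Defs

/-! # Circle `ℝ ∪ {∞}`: definitions used by all the blocks (no proofs here). -/

set_option linter.style.longLine false

open Matrix Topology Set
open scoped MatrixGroups

namespace Pool.AML

noncomputable section

/-- `f ↦ f - 1` on the circle `ℝ ∪ {∞}`. -/
def TTi (f : OnePoint ℝ) : OnePoint ℝ := f.elim OnePoint.infty (fun x => ((x - 1 : ℝ) : OnePoint ℝ))

/-- `f ↦ f + n`, `n ∈ ℤ`, on the circle. -/
def TTn (n : ℤ) (f : OnePoint ℝ) : OnePoint ℝ :=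
  f.elim OnePoint.infty (fun x => ((x + n : ℝ) : OnePoint ℝ))

/-- class of the vector `(x, y)`: the point `x / y` of `ℝ ∪ {∞}`. -/
def cls (v : ℝ × ℝ) : OnePoint ℝ := if v.2 = 0 then OnePoint.infty else ((v.1 / v.2 : ℝ) : OnePoint ℝ)

/-- representative vector of a point of the circle. -/
def rep (f : OnePoint ℝ) : ℝ × ℝ := f.elim (1, 0) (fun x => (x, 1))

/-- a matrix acting on vectors. -/
def mv (g : SL(2, ℝ)) (v : ℝ × ℝ) : ℝ × ℝ :=
  (g.1 0 0 * v.1 + g.1 0 1 * v.2, g.1 1 0 * v.1 + g.1 1 1 * v.2)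

/-- Möbius action of `SL(2,ℝ)` on the circle `ℝ ∪ {∞}`. -/
def mob (g : SL(2, ℝ)) (f : OnePoint ℝ) : OnePoint ℝ := cls (mv g (rep f))

/-- `SL(2,ℤ) → SL(2,ℝ)`. -/
def iR : SL(2, ℤ) →* SL(2, ℝ) := SpecialLinearGroup.map (n := Fin 2) (Int.castRingHom ℝ)

end

end Pool.AML
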